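import Pool.Agent.Helper21.EM.Stmts4
import Pool.Agent.Helper21.D2.GNR

/-!
# FXH: Hodge tensors are fixed by the isometries which commute with the endomorphisms
-/

set_option autoImplicit false

namespace EH.H78

open Matrix Pool.Agent.Helper82.AHS Pool.Agent.Helper21.TH

variable {r : ℕ}

theorem mem_aM {V : HS r} {X : Matrix (Fin r) (Fin r) ℚ} :
    X ∈ aM V ↔ ∃ x ∈ Ann ℚ V.HT, ∃ c : ℚ, X = x + c • 1 := by
  unfold aM
  rw [Submodule.mem_sup]
  constructor
  · rintro ⟨x, hx, y, hy, rfl⟩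
    obtain ⟨c, rfl⟩ := Submodule.mem_span_singleton.mp hy
    exact ⟨x, hx, c, rfl⟩
  · rintro ⟨x, hx, c, rfl⟩
    exact ⟨x, hx, c • 1, Submodule.mem_span_singleton.mpr ⟨c, rfl⟩, rfl⟩

/-- rational skew elements of `aM V` kill the Hodge tensors -/
theorem kill_rat (kpl : ST_KPL) (wt0 : ST_WT0) {V : HS r} {w : ℤ}
    {Q : Matrix (Fin r) (Fin r) ℚ} (hpure : ∀ i, V.p i + V.q i = w) (hdet : Q.det ≠ 0)
    (hrel : V.Dᵀ * Q.map (algebraMap ℚ ℂ) + Q.map (algebraMap ℚ ℂ) * V.D =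
        (w : ℂ) • Q.map (algebraMap ℚ ℂ)) {A : Matrix (Fin r) (Fin r) ℚ} (hAa : A ∈ aM V)
    (hskew : Aᵀ * Q + Q * A = 0) {m n : ℕ} {t : T r m n ℚ} (ht : V.Hodge t) :
    dr m A * t = t * dr n A := by
  obtain ⟨x, hx, c, rfl⟩ := mem_aM.mp hAa
  have hxt : dr m x * t = t * dr n x := by
    have h1 := hx m n t ht
    rw [up_rat] at h1
    exact h1
  rw [dr_add, dr_add, dr_smul, dr_smul, dr_one_eq, dr_one_eq, Matrix.add_mul, Matrix.mul_add, hxt]
  by_cases hmn : m = n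
  · subst hmn
    simp only [Matrix.smul_mul, Matrix.mul_smul, Matrix.one_mul, Matrix.mul_one]
  · by_cases hw : w = 0
    · have hform : V.Hodge (formT Q) := ((kpl r ℂ Q V.D hdet).2).mpr (by
        rw [hrel, hw, Int.cast_zero, zero_smul])
      have h1 := ((kpl r ℚ Q x hdet).2).mp (hx 0 2 (formT Q) hform)
      rw [map_rat] at h1
      have h2 : (2 * c) • Q = 0 := by
        have h3 := hskew
        rw [Matrix.transpose_add, Matrix.transpose_smul, Matrix.transpose_one, Matrix.add_mul,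
          Matrix.mul_add, Matrix.smul_mul, Matrix.mul_smul, Matrix.one_mul, Matrix.mul_one] at h3
        rw [mul_smul, two_smul]
        calc c • Q + c • Q = (xᵀ * Q + c • Q + (Q * x + c • Q)) - (xᵀ * Q + Q * x) := by abel
          _ = 0 := by rw [h3, h1, sub_zero]
      rcases smul_eq_zero.mp h2 with h3 | h3
      · have hc : c = 0 := by linarith
        rw [hc, zero_smul, zero_smul, Matrix.zero_mul, Matrix.mul_zero]
      · rcases Nat.eq_zero_or_pos r with hr | hr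
        · subst hr
          have h4 : (m = 0 ∨ 0 < m) ∧ (n = 0 ∨ 0 < n) :=
            ⟨Nat.eq_zero_or_pos m, Nat.eq_zero_or_pos n⟩
          ext i j
          rcases h4 with ⟨hm | hm, hn | hn⟩
          · exact absurd (hm.trans hn.symm) hmn
          · exact (j ⟨0, hn⟩).elim0
          · exact (i ⟨0, hm⟩).elim0
          · exact (i ⟨0, hm⟩).elim0
        · exfalso
          rw [h3] at hdet
          have : Nonempty (Fin r) := ⟨⟨0, hr⟩⟩
          exact hdet Matrix.det_zero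
    · have h1 := wt0 r m n V w t hpure hw hmn ht
      rw [h1]
      simp only [Matrix.mul_zero, Matrix.zero_mul]

/-- the first part -/
theorem part1 (mth : ST_MTH) (bch : EM.ST_BCH) (hli : ST_HLI) (sym : ST_SYM) (kpl : ST_KPL)
    (wt0 : ST_WT0) {V : HS r} {w : ℤ} {c w' : ℕ} {h : Fin r → ℕ} {P : GL (Fin r) ℂ}
    {x : Matrix (Fin r) (Fin r) ℚ → Fin r → ℂ} {Q : Matrix (Fin r) (Fin r) ℚ} (hQ : V.Pol Q)
    (hA : Ada V w c w' h P x) (hG : GoodH V Q w' h x) (hR : ∀ X, IsEnd V X → EM.adj Q X = X)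
    {m n : ℕ} {t : T r m n ℚ} (ht : V.Hodge t) (y : Matrix (Fin r) (Fin r) ℂ)
    (hy : yᵀ * Q.map (algebraMap ℚ ℂ) + Q.map (algebraMap ℚ ℂ) * y = 0)
    (hyX : ∀ X, IsEnd V X → y * X.map (algebraMap ℚ ℂ) = X.map (algebraMap ℚ ℂ) * y) :
    dr m y * up ℂ t = up ℂ t * dr n y := by
  obtain ⟨hdet, hev, hodd, hrel⟩ := sym r V w Q hA.pure hQ
  obtain ⟨hbrk, hsim, htrn, hcmt, hone, hD⟩ := hli r V w Q hA.pure hQ
  have hmt := (mth r V w c w' h P x Q hQ hA hG).2 hR
  obtain ⟨hC, hL, -, -⟩ := bch ℚ ℂ r Q (aM V)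
  have h1 : y ∈ EM.Lef (Q.map (algebraMap ℚ ℂ)) (MT.spn ℂ (aM V)) := by
    refine ⟨hy, fun X hX => ?_⟩
    rw [hC] at hX
    refine Submodule.span_induction (p := fun X _ => y * X = X * y) ?_ ?_ ?_ ?_ hX
    · rintro _ ⟨Z, hZ, rfl⟩
      exact hyX Z ((hcmt Z).1 hZ)
    · rw [Matrix.mul_zero, Matrix.zero_mul]
    · intro a b _ _ ha hb
      rw [Matrix.mul_add, ha, hb, Matrix.add_mul]
    · intro e a _ ha
      rw [Matrix.mul_smul, ha, Matrix.smul_mul]
  rw [hL] at h1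
  have h2 : killX (up ℂ t) y = 0 := by
    refine Submodule.span_induction (p := fun X _ => killX (up ℂ t) X = 0) ?_ ?_ ?_ ?_ h1
    · rintro _ ⟨Z, hZ, rfl⟩
      rw [killX_iff]
      refine kill_up.2 ?_
      obtain ⟨hZ1, hZ2⟩ := hZ
      refine kill_rat kpl wt0 hA.pure hdet hrel ((hmt Z).2 ⟨⟨0, ?_⟩, fun X hX => ?_⟩) hZ1 ht
      · rw [zero_smul]; exact hZ1
      · exact hZ2 X ((hcmt X).2 hX)
    · rw [map_zero]
    · intro a b _ _ ha hb
      rw [map_add, ha, hb, add_zero]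
    · intro e a _ ha
      rw [map_smul, ha, smul_zero]
  exact killX_iff.1 h2

end EH.H78

namespace EH

open Matrix Pool.Agent.Helper82.AHS Pool.Agent.Helper21.TH

theorem st_FXH (mth : ST_MTH) (blk : ST_BLK) (bch : EM.ST_BCH) (hli : ST_HLI) (sym : ST_SYM)
    (kpl : ST_KPL) (wt0 : ST_WT0) : ST_FXH := by
  intro r V w c w' h P x Q hQ hA hG hR m n t ht
  obtain ⟨hdet, hev, hodd, hrel⟩ := sym r V w Q hA.pure hQ
  have hP1 := H78.part1 mth bch hli sym kpl wt0 hQ hA hG hR ht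
  refine ⟨hP1, fun hsize g hg hgX => ?_⟩
  -- the labels
  let s : Setoid (Fin r) :=
    { r := fun i j => ∀ X, IsEnd V X → x X i = x X j
      iseqv := ⟨fun i X _ => rfl, fun h X hX => (h X hX).symm,
        fun h1 h2 X hX => (h1 X hX).trans (h2 X hX)⟩ }
  let cl : Fin r → Fin r := fun j => (Quotient.mk s j).out
  have hcl : ∀ i j, cl i = cl j ↔ ∀ X, IsEnd V X → x X i = x X j := by
    intro i j
    change (Quotient.mk s i).out = (Quotient.mk s j).out ↔ _
    rw [Quotient.out_inj]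
    exact ⟨fun h1 => Quotient.exact h1, fun h1 => Quotient.sound h1⟩
  have hPP : (P : Matrix (Fin r) (Fin r) ℂ) * ((P⁻¹ : GL (Fin r) ℂ) : Matrix (Fin r) (Fin r) ℂ) = 1 :=
    gl_mul_inv P
  have hPP' : ((P⁻¹ : GL (Fin r) ℂ) : Matrix (Fin r) (Fin r) ℂ) * (P : Matrix (Fin r) (Fin r) ℂ) = 1 :=
    gl_inv_mul P
  -- matrices which commute with the endomorphisms
  have hcom : ∀ (y : Matrix (Fin r) (Fin r) ℂ) (X : Matrix (Fin r) (Fin r) ℚ), IsEnd V X →
      (y * X.map (algebraMap ℚ ℂ) = X.map (algebraMap ℚ ℂ) * y ↔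
        (((P⁻¹ : GL (Fin r) ℂ) : Matrix (Fin r) (Fin r) ℂ) * y * (P : Matrix (Fin r) (Fin r) ℂ)) *
          diagonal (x X) = diagonal (x X) *
        (((P⁻¹ : GL (Fin r) ℂ) : Matrix (Fin r) (Fin r) ℂ) * y * (P : Matrix (Fin r) (Fin r) ℂ))) := by
    intro y X hX
    have h1 := hA.diag X hX
    have h2 : ((P⁻¹ : GL (Fin r) ℂ) : Matrix (Fin r) (Fin r) ℂ) * X.map (algebraMap ℚ ℂ) =
        diagonal (x X) * ((P⁻¹ : GL (Fin r) ℂ) : Matrix (Fin r) (Fin r) ℂ) := by
      calc ((P⁻¹ : GL (Fin r) ℂ) : Matrix (Fin r) (Fin r) ℂ) * X.map (algebraMap ℚ ℂ)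
          = ((P⁻¹ : GL (Fin r) ℂ) : Matrix (Fin r) (Fin r) ℂ) * (X.map (algebraMap ℚ ℂ) *
              (P : Matrix (Fin r) (Fin r) ℂ)) * ((P⁻¹ : GL (Fin r) ℂ) : Matrix (Fin r) (Fin r) ℂ) := by
            rw [Matrix.mul_assoc, Matrix.mul_assoc, hPP, Matrix.mul_one]
        _ = (((P⁻¹ : GL (Fin r) ℂ) : Matrix (Fin r) (Fin r) ℂ) * (P : Matrix (Fin r) (Fin r) ℂ)) *
              diagonal (x X) * ((P⁻¹ : GL (Fin r) ℂ) : Matrix (Fin r) (Fin r) ℂ) := by
            rw [h1, ← Matrix.mul_assoc]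
        _ = _ := by rw [hPP', Matrix.one_mul]
    constructor
    · intro h3
      calc (((P⁻¹ : GL (Fin r) ℂ) : Matrix (Fin r) (Fin r) ℂ) * y * (P : Matrix (Fin r) (Fin r) ℂ)) *
          diagonal (x X) = ((P⁻¹ : GL (Fin r) ℂ) : Matrix (Fin r) (Fin r) ℂ) *
            (y * X.map (algebraMap ℚ ℂ)) * (P : Matrix (Fin r) (Fin r) ℂ) := by
            rw [Matrix.mul_assoc, ← h1]
            simp only [Matrix.mul_assoc]
        _ = (((P⁻¹ : GL (Fin r) ℂ) : Matrix (Fin r) (Fin r) ℂ) * X.map (algebraMap ℚ ℂ)) * y *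
              (P : Matrix (Fin r) (Fin r) ℂ) := by
            rw [h3]
            simp only [Matrix.mul_assoc]
        _ = _ := by
            rw [h2]
            simp only [Matrix.mul_assoc]
    · intro h3
      calc y * X.map (algebraMap ℚ ℂ)
          = (P : Matrix (Fin r) (Fin r) ℂ) * ((((P⁻¹ : GL (Fin r) ℂ) : Matrix (Fin r) (Fin r) ℂ) *
              y * (P : Matrix (Fin r) (Fin r) ℂ)) * diagonal (x X)) *
                ((P⁻¹ : GL (Fin r) ℂ) : Matrix (Fin r) (Fin r) ℂ) := by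
            have h4 : (P : Matrix (Fin r) (Fin r) ℂ) *
                ((((P⁻¹ : GL (Fin r) ℂ) : Matrix (Fin r) (Fin r) ℂ) *
                  y * (P : Matrix (Fin r) (Fin r) ℂ)) * diagonal (x X)) *
                ((P⁻¹ : GL (Fin r) ℂ) : Matrix (Fin r) (Fin r) ℂ) =
                ((P : Matrix (Fin r) (Fin r) ℂ) *
                  ((P⁻¹ : GL (Fin r) ℂ) : Matrix (Fin r) (Fin r) ℂ)) * y *
                  ((P : Matrix (Fin r) (Fin r) ℂ) * diagonal (x X)) *
                  ((P⁻¹ : GL (Fin r) ℂ) : Matrix (Fin r) (Fin r) ℂ) := by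
              simp only [Matrix.mul_assoc]
            rw [h4, hPP, Matrix.one_mul, ← h1, Matrix.mul_assoc, Matrix.mul_assoc, hPP,
              Matrix.mul_one]
        _ = X.map (algebraMap ℚ ℂ) * y := by
            rw [h3]
            have h4 : (P : Matrix (Fin r) (Fin r) ℂ) * (diagonal (x X) *
                (((P⁻¹ : GL (Fin r) ℂ) : Matrix (Fin r) (Fin r) ℂ) *
                  y * (P : Matrix (Fin r) (Fin r) ℂ))) *
                ((P⁻¹ : GL (Fin r) ℂ) : Matrix (Fin r) (Fin r) ℂ) =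
                ((P : Matrix (Fin r) (Fin r) ℂ) * diagonal (x X)) *
                  ((P⁻¹ : GL (Fin r) ℂ) : Matrix (Fin r) (Fin r) ℂ) * y *
                  ((P : Matrix (Fin r) (Fin r) ℂ) *
                  ((P⁻¹ : GL (Fin r) ℂ) : Matrix (Fin r) (Fin r) ℂ)) := by
              simp only [Matrix.mul_assoc]
            rw [h4, hPP, Matrix.mul_one, ← h1, Matrix.mul_assoc (X.map (algebraMap ℚ ℂ)), hPP,
              Matrix.mul_one]
  have hent : ∀ (N : Matrix (Fin r) (Fin r) ℂ) (d : Fin r → ℂ),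
      N * diagonal d = diagonal d * N ↔ ∀ i j, N i j ≠ 0 → d i = d j := by
    intro N d
    constructor
    · intro h1 i j hij
      have h2 := congrFun (congrFun h1 i) j
      rw [Matrix.mul_diagonal, Matrix.diagonal_mul] at h2
      have h3 : (d i - d j) * N i j = 0 := by linear_combination -h2
      rcases mul_eq_zero.1 h3 with h4 | h4
      · exact sub_eq_zero.1 h4
      · exact absurd h4 hij
    · intro h1
      ext i j
      rw [Matrix.mul_diagonal, Matrix.diagonal_mul]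
      by_cases hij : N i j = 0
      · rw [hij, zero_mul, mul_zero]
      · rw [h1 i j hij, mul_comm]
  have hblock : ∀ y : Matrix (Fin r) (Fin r) ℂ,
      (∀ X, IsEnd V X → y * X.map (algebraMap ℚ ℂ) = X.map (algebraMap ℚ ℂ) * y) ↔
      (∀ i j, (((P⁻¹ : GL (Fin r) ℂ) : Matrix (Fin r) (Fin r) ℂ) * y *
        (P : Matrix (Fin r) (Fin r) ℂ)) i j ≠ 0 → cl i = cl j) := by
    intro y
    constructor
    · intro h1 i j hij
      rw [hcl]
      intro X hX
      exact (hent _ _).1 ((hcom y X hX).1 (h1 X hX)) i j hij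
    · intro h1 X hX
      refine (hcom y X hX).2 ((hent _ _).2 fun i j hij => ?_)
      exact (hcl i j).1 (h1 i j hij) X hX
  have hQdet : (Q.map (algebraMap ℚ ℂ)).det ≠ 0 := by
    have h1 : (Q.map (algebraMap ℚ ℂ)).det = algebraMap ℚ ℂ Q.det :=
      (RingHom.map_det (algebraMap ℚ ℂ) Q).symm
    rw [h1]
    exact (map_ne_zero_iff _ (algebraMap ℚ ℂ).injective).2 hdet
  have hQsym : (Q.map (algebraMap ℚ ℂ))ᵀ = Q.map (algebraMap ℚ ℂ) ∨
      (Q.map (algebraMap ℚ ℂ))ᵀ = -Q.map (algebraMap ℚ ℂ) := by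
    rcases Int.even_or_odd w with hw | hw
    · left
      rw [← Matrix.transpose_map, hev hw]
    · right
      rw [← Matrix.transpose_map, hodd hw]
      ext i j
      simp
  have hform : ∀ i j, ((P : Matrix (Fin r) (Fin r) ℂ)ᵀ * Q.map (algebraMap ℚ ℂ) *
      (P : Matrix (Fin r) (Fin r) ℂ)) i j ≠ 0 → cl i = cl j := by
    intro i j hij
    rw [hcl]
    intro X hX
    have h1 := hA.diag X hX
    have h2 : Xᵀ * Q = Q * X := by
      have h3 := hR X hX
      unfold EM.adj at h3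
      calc Xᵀ * Q = (Q * Q⁻¹) * Xᵀ * Q := by
            rw [Matrix.mul_nonsing_inv Q (isUnit_iff_ne_zero.mpr hdet), Matrix.one_mul]
        _ = Q * (Q⁻¹ * Xᵀ * Q) := by simp only [Matrix.mul_assoc]
        _ = _ := by rw [h3]
    have h3 : (X.map (algebraMap ℚ ℂ))ᵀ * Q.map (algebraMap ℚ ℂ) =
        Q.map (algebraMap ℚ ℂ) * X.map (algebraMap ℚ ℂ) := by
      rw [← Matrix.transpose_map, ← Matrix.map_mul, h2, Matrix.map_mul]
    have h4 : ((P : Matrix (Fin r) (Fin r) ℂ)ᵀ * Q.map (algebraMap ℚ ℂ) *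
        (P : Matrix (Fin r) (Fin r) ℂ)) * diagonal (x X) = diagonal (x X) *
        ((P : Matrix (Fin r) (Fin r) ℂ)ᵀ * Q.map (algebraMap ℚ ℂ) *
        (P : Matrix (Fin r) (Fin r) ℂ)) := by
      have h5 : (P : Matrix (Fin r) (Fin r) ℂ)ᵀ * (X.map (algebraMap ℚ ℂ))ᵀ =
          diagonal (x X) * (P : Matrix (Fin r) (Fin r) ℂ)ᵀ := by
        rw [← Matrix.transpose_mul, h1, Matrix.transpose_mul, Matrix.diagonal_transpose]
      calc ((P : Matrix (Fin r) (Fin r) ℂ)ᵀ * Q.map (algebraMap ℚ ℂ) *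
            (P : Matrix (Fin r) (Fin r) ℂ)) * diagonal (x X)
          = (P : Matrix (Fin r) (Fin r) ℂ)ᵀ * (Q.map (algebraMap ℚ ℂ) *
              X.map (algebraMap ℚ ℂ)) * (P : Matrix (Fin r) (Fin r) ℂ) := by
            rw [Matrix.mul_assoc, ← h1]
            simp only [Matrix.mul_assoc]
        _ = ((P : Matrix (Fin r) (Fin r) ℂ)ᵀ * (X.map (algebraMap ℚ ℂ))ᵀ) *
              Q.map (algebraMap ℚ ℂ) * (P : Matrix (Fin r) (Fin r) ℂ) := by
            rw [← h3]
            simp only [Matrix.mul_assoc]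
        _ = _ := by
            rw [h5]
            simp only [Matrix.mul_assoc]
    exact (hent _ _).1 h4 i j hij
  refine blk ℂ r m n (Q.map (algebraMap ℚ ℂ)) P cl (up ℂ t) hQdet hQsym hform
    (fun y hy hyb => hP1 y hy ((hblock y).2 hyb)) ?_ g hg ((hblock _).1 hgX)
  rcases hsize with hw | hk
  · left
    rw [← Matrix.transpose_map, hodd hw]
    ext i j
    simp
  · right
    intro k
    have h1 := hk k
    unfold bsz at h1
    refine lt_of_lt_of_eq h1 ?_
    congr 1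
    ext j
    simp only [Finset.mem_filter, Finset.mem_univ, true_and]
    exact (hcl j k).symm

end EH
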