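import Pool.Agent.Helper21.EM.Stmts4
import Pool.Agent.Helper21.D2.GNR

/-!
# MTH: the Mumford-Tate group of a Hodge structure with endomorphisms
-/

set_option autoImplicit false

namespace EH

open Matrix Pool.Agent.Helper82.AHS Pool.Agent.Helper21.TH

theorem st_MTH (hco : EM.ST_HCO) (hli : ST_HLI) (sym : ST_SYM) : ST_MTH := by
  intro r V w c w' h P x Q hQ hA hG
  obtain ⟨hbrk, hsim, htrn, hcmt, hone, hD⟩ := hli r V w Q hA.pure hQ
  obtain ⟨hdet, hev, hodd, hrel⟩ := sym r V w Q hA.pure hQ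
  have hsign : Q.transpose = (-1 : ℚ) ^ w' • Q := by
    have hw' := hA.tate
    rcases Int.even_or_odd w with hw | hw
    · have h1 : Even w' := by
        rw [← Int.even_coe_nat, hw']
        exact hw.add (even_two_mul _)
      rw [h1.neg_one_pow, one_smul]
      exact hev hw
    · have h1 : Odd w' := by
        rw [← Int.odd_coe_nat, hw']
        exact hw.add_even (even_two_mul _)
      rw [h1.neg_one_pow, neg_one_smul]
      exact hodd hw
  have hsum : 2 * ∑ j, h j = r * w' := by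
    have h1 := trace_rel hdet hrel
    have h2 : ((2 * ∑ j, h j : ℕ) : ℤ) = ((r * w' : ℕ) : ℤ) := by
      push_cast
      rw [Finset.sum_congr rfl fun j _ => hA.types j, Finset.sum_add_distrib, Finset.sum_const,
        Finset.card_univ, Fintype.card_fin, hA.tate, nsmul_eq_mul]
      linear_combination h1
    exact_mod_cast h2
  have hΘ0 : (P : Matrix (Fin r) (Fin r) ℂ) * Matrix.diagonal (fun j => (h j : ℂ)) *
      ((P⁻¹ : Matrix.GeneralLinearGroup (Fin r) ℂ) : Matrix (Fin r) (Fin r) ℂ) =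
        V.D + (c : ℂ) • 1 := by
    have h2 : Matrix.diagonal (fun j => (h j : ℂ)) =
        Matrix.diagonal (fun j => (V.p j : ℂ)) + (c : ℂ) • (1 : Matrix (Fin r) (Fin r) ℂ) := by
      rw [Matrix.smul_one_eq_diagonal, Matrix.diagonal_add]
      congr 1
      funext j
      have h3 := hA.types j
      have h4 : ((h j : ℤ) : ℂ) = ((V.p j + c : ℤ) : ℂ) := by rw [h3]
      push_cast at h4
      exact h4
    rw [h2, Matrix.mul_add, Matrix.add_mul, Matrix.mul_smul, Matrix.mul_one, Matrix.smul_mul,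
      gl_mul_inv, ← hA.grad, Matrix.mul_assoc, gl_mul_inv, Matrix.mul_one]
  have hΘ : (P : Matrix (Fin r) (Fin r) ℂ) * Matrix.diagonal (fun j => (h j : ℂ)) *
      ((P⁻¹ : Matrix.GeneralLinearGroup (Fin r) ℂ) : Matrix (Fin r) (Fin r) ℂ) ∈
        MT.spn ℂ (aM V) := by
    rw [hΘ0]
    refine Submodule.add_mem _ hD (Submodule.smul_mem _ _ ?_)
    refine Submodule.subset_span ⟨1, hone, ?_⟩
    rw [Matrix.map_one _ (map_zero _) (map_one _)]
  have hE : ∀ p : Matrix (Fin r) (Fin r) ℚ → Prop,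
      (∀ X ∈ EM.Cmt (aM V), p X) ↔ (∀ X, IsEnd V X → p X) := fun p =>
    ⟨fun h1 X hX => h1 X ((hcmt X).2 hX), fun h1 X hX => h1 X ((hcmt X).1 hX)⟩
  have hgood : ∀ k, ∃ k', (∀ X ∈ EM.Cmt (aM V), x X k = 0 ↔ x X k' = 0) ∧
      EM.GoodAt w' h (fun j => ∀ X ∈ EM.Cmt (aM V), x X j = x X k')
        (∀ X ∈ EM.Cmt (aM V), x (EM.adj Q X) k' = x X k') k' := by
    intro k
    obtain ⟨k', h1, h2⟩ := hG k
    refine ⟨k', (hE _).2 h1, ?_⟩
    have h3 : (fun j => ∀ X ∈ EM.Cmt (aM V), x X j = x X k')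
        = (fun j => ∀ X, IsEnd V X → x X j = x X k') := by
      funext j
      exact propext (hE _)
    have h4 : (∀ X ∈ EM.Cmt (aM V), x (EM.adj Q X) k' = x X k')
        = (∀ X, IsEnd V X → x (EM.adj Q X) k' = x X k') := propext (hE _)
    rw [h3, h4]
    exact h2
  obtain ⟨h1, h2⟩ := hco r w' h Q (aM V) P x hA.pos hsum hdet hsign hbrk hsim htrn hΘ
    (fun X hX => hA.diag X ((hcmt X).1 hX)) hgood
  refine ⟨?_, ?_⟩
  · have h3 : EM.Lef Q (aM V) = EM.LefE Q (EndS V) := by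
      ext A
      exact and_congr Iff.rfl (hE fun X => A * X = X * A)
    rw [h1, h3]
  · intro h3 A
    rw [h2 ((hE _).2 h3) A]
    exact and_congr Iff.rfl (hE fun X => A * X = X * A)

end EH
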